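import Mathlib

/-! Norms of `∑ a χ(a)`: the p-adic part. -/

set_option autoImplicit false

namespace Pool.Agent.H42R3

open Finset

/-- the residue of `g ^ k` in `[1, p-1]` -/
def rr {p : ℕ} (g : (ZMod p)ˣ) (k : ℕ) : ℕ := ((g : ZMod p) ^ k).val

/-- `∑ z ^ k r_k`, i.e. `∑ a χ(a)` for the character with `χ(g) = z` -/
def TT {p : ℕ} (g : (ZMod p)ˣ) {R : Type*} [CommRing R] (z : R) : R :=
  ∑ k ∈ range (p - 1), z ^ k * (rr g k : R)

variable {p : ℕ} [hp : Fact p.Prime]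

lemma rr_cast (g : (ZMod p)ˣ) (k : ℕ) : ((rr g k : ℕ) : ZMod p) = (g : ZMod p) ^ k := by
  unfold rr
  rw [ZMod.natCast_val, ZMod.cast_id]

lemma rr_lt (g : (ZMod p)ˣ) (k : ℕ) : rr g k < p := ZMod.val_lt _

lemma rr_zero (g : (ZMod p)ˣ) : rr g 0 = 1 := by
  unfold rr
  have := hp.out.one_lt
  have : Fact (1 < p) := ⟨this⟩
  rw [pow_zero, ZMod.val_one]

lemma gpow (g : (ZMod p)ˣ) : (g : ZMod p) ^ (p - 1) = 1 := by
  have := ZMod.units_pow_card_sub_one_eq_one p g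
  rw [← Units.val_pow_eq_pow_val, this, Units.val_one]

lemma rr_period (g : (ZMod p)ˣ) : rr g (p - 1) = rr g 0 := by
  unfold rr
  rw [gpow, pow_zero]

/-- `e_k = ⌊c r_k / p⌋`, `c = r_1` -/
def ee (g : (ZMod p)ˣ) (k : ℕ) : ℕ := rr g 1 * rr g k / p

lemma rr_succ (g : (ZMod p)ˣ) (k : ℕ) : rr g (k + 1) + p * ee g k = rr g 1 * rr g k := by
  have h : rr g (k + 1) = (rr g 1 * rr g k) % p := by
    have h1 : ((rr g 1 * rr g k : ℕ) : ZMod p) = (g : ZMod p) ^ (k + 1) := by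
      rw [Nat.cast_mul, rr_cast, rr_cast, pow_one, pow_succ']
    have h2 : rr g (k + 1) = ((rr g 1 * rr g k : ℕ) : ZMod p).val := by
      rw [h1]; rfl
    rw [h2, ZMod.val_natCast]
  rw [h]
  exact Nat.mod_add_div _ _

lemma sum_shift {R : Type*} [AddCommGroup R] (f : ℕ → R) (n : ℕ) (h : f n = f 0) :
    ∑ k ∈ range n, f (k + 1) = ∑ k ∈ range n, f k := by
  have h1 := Finset.sum_range_succ f n
  have h2 := Finset.sum_range_succ' f n
  rw [h1, h] at h2
  exact (add_right_cancel h2).symm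

/-- the fundamental identity -/
lemma TT_ident (g : (ZMod p)ˣ) {R : Type*} [CommRing R] (z : R) (hz : z ^ (p - 1) = 1) :
    (1 - (rr g 1 : R) * z) * TT g z = - ((p : R) * z * ∑ k ∈ range (p - 1), z ^ k * (ee g k : R)) := by
  have h1 : TT g z = ∑ k ∈ range (p - 1), z ^ (k + 1) * (rr g (k + 1) : R) := by
    unfold TT
    rw [sum_shift (fun k => z ^ k * (rr g k : R)) (p - 1)]
    simp only [hz, rr_period, pow_zero]
  have h2 : ∑ k ∈ range (p - 1), z ^ (k + 1) * (rr g (k + 1) : R) =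
      (rr g 1 : R) * z * TT g z - (p : R) * z * ∑ k ∈ range (p - 1), z ^ k * (ee g k : R) := by
    unfold TT
    rw [Finset.mul_sum, Finset.mul_sum, ← Finset.sum_sub_distrib]
    apply Finset.sum_congr rfl
    intro k _
    have := congrArg (fun n : ℕ => (n : R)) (rr_succ g k)
    simp only [Nat.cast_add, Nat.cast_mul] at this
    have h3 : (rr g (k + 1) : R) = rr g 1 * rr g k - p * ee g k := by
      rw [← this]; ring
    rw [h3]
    ring
  rw [h2] at h1
  linear_combination h1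

/-- the same for power sums, modulo `p ^ 2` -/
lemma pow_ident (g : (ZMod p)ˣ) (n : ℕ) :
    ((p : ℤ) ^ 2) ∣ (1 - (rr g 1 : ℤ) ^ n) * (∑ k ∈ range (p - 1), (rr g k : ℤ) ^ n) +
      (n : ℤ) * p * (rr g 1 : ℤ) ^ (n - 1) *
        ∑ k ∈ range (p - 1), (rr g k : ℤ) ^ (n - 1) * (ee g k : ℤ) := by
  have h1 : (∑ k ∈ range (p - 1), (rr g k : ℤ) ^ n) =
      ∑ k ∈ range (p - 1), (rr g (k + 1) : ℤ) ^ n := by
    rw [sum_shift (fun k => (rr g k : ℤ) ^ n) (p - 1)]
    simp only [rr_period]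
  have h2 : (1 - (rr g 1 : ℤ) ^ n) * (∑ k ∈ range (p - 1), (rr g k : ℤ) ^ n) +
      (n : ℤ) * p * (rr g 1 : ℤ) ^ (n - 1) *
        ∑ k ∈ range (p - 1), (rr g k : ℤ) ^ (n - 1) * (ee g k : ℤ) =
      ∑ k ∈ range (p - 1), ((rr g (k + 1) : ℤ) ^ n - ((rr g 1 : ℤ) * rr g k) ^ n +
        (n : ℤ) * p * (ee g k) * ((rr g 1 : ℤ) * rr g k) ^ (n - 1)) := by
    rw [sub_mul, one_mul]
    nth_rewrite 1 [h1]
    rw [Finset.mul_sum, Finset.mul_sum, ← Finset.sum_sub_distrib, ← Finset.sum_add_distrib]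
    apply Finset.sum_congr rfl
    intro k _
    rw [mul_pow, mul_pow]
    ring
  rw [h2]
  apply Finset.dvd_sum
  intro k _
  have h3 : (rr g (k + 1) : ℤ) = rr g 1 * rr g k - p * ee g k := by
    have := rr_succ g k
    have h4 : ((rr g (k + 1) + p * ee g k : ℕ) : ℤ) = ((rr g 1 * rr g k : ℕ) : ℤ) := by rw [this]
    push_cast at h4
    linarith
  rw [h3]
  generalize (rr g 1 : ℤ) * rr g k = x
  generalize (ee g k : ℤ) = e
  rcases n with _ | n
  · simp
  · -- (x - p e)^(n+1) - x^(n+1) + (n+1) p e x^n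
    have key : ∀ n : ℕ, ((p : ℤ) ^ 2) ∣ (x - p * e) ^ (n + 1) - x ^ (n + 1) +
        ((n + 1 : ℕ) : ℤ) * p * e * x ^ n := by
      intro n
      induction n with
      | zero => simp
      | succ n ih =>
        have : (x - p * e) ^ (n + 1 + 1) - x ^ (n + 1 + 1) +
            ((n + 1 + 1 : ℕ) : ℤ) * p * e * x ^ (n + 1) =
            (x - p * e) * ((x - p * e) ^ (n + 1) - x ^ (n + 1) +
              ((n + 1 : ℕ) : ℤ) * p * e * x ^ n) + (p : ℤ) ^ 2 * (((n + 1 : ℕ) : ℤ) * e ^ 2 * x ^ n) := by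
          push_cast
          ring
        rw [this]
        exact dvd_add (ih.mul_left _) (dvd_mul_right _ _)
    have := key n
    simpa using this

end Pool.Agent.H42R3
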