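import Mathlib
import Pool.Agent.H332R2.CastLem
import Pool.Agent.H42R3.Padic

/-! If `p` divides the numerator of `B_n` then `p ^ 2` divides `∑ a ^ n`. -/

set_option autoImplicit false

namespace Pool.Agent.H42R3

open Finset

variable {p : ℕ} [hp : Fact p.Prime]

lemma norm_bern_le {k : ℕ} (hk : k + 2 ≤ p) (hp3 : 3 ≤ p) : ‖((bernoulli k : ℚ) : ℚ_[p])‖ ≤ 1 := by
  have h := Pool.Agent.H332R2.bern_den_ne (p := p) hk hp3
  have h2 : ¬ (p ∣ (bernoulli k).den) := by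
    rwa [Ne, ZMod.natCast_eq_zero_iff] at h
  exact Padic.norm_rat_le_one h2

lemma norm_bern_num {k : ℕ} (hk : k + 2 ≤ p) (hp3 : 3 ≤ p) (hd : (p : ℤ) ∣ (bernoulli k).num) :
    ‖((bernoulli k : ℚ) : ℚ_[p])‖ ≤ (p : ℝ)⁻¹ := by
  have h := Pool.Agent.H332R2.bern_den_ne (p := p) hk hp3
  have h2 : ¬ (p ∣ (bernoulli k).den) := by
    rwa [Ne, ZMod.natCast_eq_zero_iff] at h
  have h3 : ((bernoulli k : ℚ) : ℚ_[p]) = ((bernoulli k).num : ℚ_[p]) / ((bernoulli k).den : ℚ_[p]) := by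
    rw [← Rat.cast_def]
  have h4 : ‖((bernoulli k).den : ℚ_[p])‖ = 1 := by
    have := (Padic.norm_natCast_eq_one_iff (p := p) (n := (bernoulli k).den)).2
      ((Nat.Prime.coprime_iff_not_dvd hp.out).2 h2)
    exact this
  rw [h3, norm_div, h4, div_one]
  have h5 := (Padic.norm_int_le_pow_iff_dvd (p := p) (bernoulli k).num 1).2 (by simpa using hd)
  simpa using h5

lemma pow_dvd_sum_pow {n : ℕ} (hn2 : 2 ≤ n) (hn : n + 3 ≤ p) (hd : (p : ℤ) ∣ (bernoulli n).num) :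
    ((p : ℤ) ^ 2) ∣ ∑ a ∈ range p, (a : ℤ) ^ n := by
  have hp0 : (0 : ℝ) < p := by exact_mod_cast hp.out.pos
  have hp1 : (1 : ℝ) < p := by exact_mod_cast hp.out.one_lt
  have h1 := sum_range_pow p n
  have h2 : ‖(((∑ a ∈ range p, (a : ℤ) ^ n : ℤ)) : ℚ_[p])‖ ≤ (p : ℝ) ^ (-(2 : ℕ) : ℤ) := by
    have h3 : (((∑ a ∈ range p, (a : ℤ) ^ n : ℤ)) : ℚ_[p]) =
        (((∑ a ∈ range p, (a : ℚ) ^ n : ℚ)) : ℚ_[p]) := by
      push_cast
      rfl
    rw [h3, h1]
    push_cast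
    apply IsUltrametricDist.norm_sum_le_of_forall_le_of_nonneg (by positivity)
    intro i hi
    rw [Finset.mem_range] at hi
    have hc : ‖(((n + 1).choose i : ℕ) : ℚ_[p])‖ ≤ 1 := by
      have := Padic.norm_int_le_one (p := p) (((n + 1).choose i : ℕ) : ℤ)
      simpa using this
    have hn1 : ‖((n : ℚ_[p]) + 1)‖ = 1 := by
      have h5 : ¬ (p ∣ n + 1) := by
        intro h
        have := Nat.le_of_dvd (by omega) h
        omega
      have := (Padic.norm_natCast_eq_one_iff (p := p) (n := n + 1)).2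
        ((Nat.Prime.coprime_iff_not_dvd hp.out).2 h5)
      push_cast at this
      exact this
    have hpn : ‖(p : ℚ_[p])‖ = (p : ℝ)⁻¹ := Padic.norm_p
    rw [norm_div, norm_mul, norm_mul, norm_pow, hpn, hn1, div_one]
    have hpow : ((p : ℝ) ^ (-2 : ℤ)) = ((p : ℝ)⁻¹) ^ 2 := by
      rw [zpow_neg, inv_pow]
      norm_cast
    rw [hpow]
    have hinv : (p : ℝ)⁻¹ ≤ 1 := inv_le_one_of_one_le₀ hp1.le
    have hinv0 : (0 : ℝ) ≤ (p : ℝ)⁻¹ := by positivity
    rcases Nat.lt_or_ge i n with hlt | hge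
    · have hb := norm_bern_le (p := p) (k := i) (by omega) (by omega)
      have he : ((p : ℝ)⁻¹) ^ (n + 1 - i) ≤ ((p : ℝ)⁻¹) ^ 2 :=
        pow_le_pow_of_le_one hinv0 hinv (by omega)
      calc ‖((bernoulli i : ℚ) : ℚ_[p])‖ * ‖(((n + 1).choose i : ℕ) : ℚ_[p])‖ * ((p : ℝ)⁻¹) ^ (n + 1 - i)
          ≤ 1 * 1 * ((p : ℝ)⁻¹) ^ 2 := by gcongr
        _ = _ := by ring
    · have hin : i = n := by omega
      subst hin
      have hb := norm_bern_num (p := p) (k := i) (by omega) (by omega) hd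
      have he : i + 1 - i = 1 := by omega
      rw [he, pow_one]
      calc ‖((bernoulli i : ℚ) : ℚ_[p])‖ * ‖(((i + 1).choose i : ℕ) : ℚ_[p])‖ * (p : ℝ)⁻¹
          ≤ (p : ℝ)⁻¹ * 1 * (p : ℝ)⁻¹ := by gcongr
        _ = _ := by ring
  have h6 := (Padic.norm_int_le_pow_iff_dvd (p := p) (∑ a ∈ range p, (a : ℤ) ^ n) 2).1 h2
  exact_mod_cast h6

/-- the powers of a primitive root run through all nonzero residues -/
lemma sum_rr (g : (ZMod p)ˣ) (hg : orderOf g = p - 1) {R : Type*} [AddCommMonoid R] (f : ℕ → R) :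
    ∑ k ∈ range (p - 1), f (rr g k) = ∑ a ∈ Ico 1 p, f a := by
  have hp1 := hp.out.one_lt
  apply Finset.sum_bij (fun k _ => rr g k)
  · intro k _
    rw [Finset.mem_Ico]
    refine ⟨?_, rr_lt g k⟩
    rw [Nat.one_le_iff_ne_zero]
    intro h
    have h2 := rr_cast g k
    rw [h, Nat.cast_zero] at h2
    have h3 : IsUnit ((g : ZMod p) ^ k) := (g.isUnit).pow k
    rw [← h2] at h3
    exact not_isUnit_zero h3
  · intro a ha b hb hab
    rw [Finset.mem_range] at ha hb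
    have h2 : (g : ZMod p) ^ a = (g : ZMod p) ^ b := by
      rw [← rr_cast, ← rr_cast, hab]
    have h3 : g ^ a = g ^ b := by
      apply Units.ext
      rw [Units.val_pow_eq_pow_val, Units.val_pow_eq_pow_val, h2]
    exact pow_injOn_Iio_orderOf (by rw [Set.mem_Iio, hg]; exact ha) (by rw [Set.mem_Iio, hg]; exact hb) h3
  · intro a ha
    rw [Finset.mem_Ico] at ha
    have hu : ((a : ℕ) : ZMod p) ≠ 0 := by
      intro h
      rw [ZMod.natCast_eq_zero_iff] at h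
      have := Nat.le_of_dvd (by omega) h
      omega
    have hcard : Nat.card (ZMod p)ˣ = p - 1 := by
      rw [Nat.card_eq_fintype_card, ZMod.card_units_eq_totient, Nat.totient_prime hp.out]
    have hmem : Units.mk0 ((a : ℕ) : ZMod p) hu ∈ Subgroup.zpowers g := by
      have htop : Subgroup.zpowers g = ⊤ := by
        apply Subgroup.eq_top_of_card_eq
        rw [Nat.card_zpowers, hg, hcard]
      rw [htop]
      exact Subgroup.mem_top _
    rw [mem_zpowers_iff_mem_range_orderOf] at hmem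
    rw [Finset.mem_image] at hmem
    obtain ⟨k, hk, hk2⟩ := hmem
    rw [hg] at hk
    refine ⟨k, hk, ?_⟩
    have h4 : (g : ZMod p) ^ k = ((a : ℕ) : ZMod p) := by
      have := congrArg (fun u : (ZMod p)ˣ => (u : ZMod p)) hk2
      simpa using this
    unfold rr
    rw [h4, ZMod.val_natCast, Nat.mod_eq_of_lt ha.2]
  · intro k _
    rfl

lemma exists_gen : ∃ g : (ZMod p)ˣ, orderOf g = p - 1 := by
  obtain ⟨g, hg⟩ := IsCyclic.exists_generator (α := (ZMod p)ˣ)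
  refine ⟨g, ?_⟩
  rw [orderOf_eq_card_of_forall_mem_zpowers hg, Nat.card_eq_fintype_card,
    ZMod.card_units_eq_totient, Nat.totient_prime hp.out]

/-- if `p` divides the numerator of `B_n`, then `p` divides `∑ r_k^(n-1) e_k` -/
lemma dvd_sum_ee (g : (ZMod p)ˣ) (hg : orderOf g = p - 1) {n : ℕ} (hn2 : 2 ≤ n) (hn : n + 3 ≤ p)
    (hd : (p : ℤ) ∣ (bernoulli n).num) :
    (∑ k ∈ range (p - 1), ((g : ZMod p) ^ k) ^ (n - 1) * ((ee g k : ℕ) : ZMod p)) = 0 := by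
  have h1 := pow_dvd_sum_pow hn2 hn hd
  have h2 : ∑ a ∈ range p, (a : ℤ) ^ n = ∑ k ∈ range (p - 1), (rr g k : ℤ) ^ n := by
    rw [sum_rr g hg (fun a => (a : ℤ) ^ n)]
    rw [Finset.range_eq_Ico, Finset.sum_eq_sum_Ico_succ_bot hp.out.pos]
    simp [show n ≠ 0 by omega]
  rw [h2] at h1
  have h3 := pow_ident g n
  have h4 : ((p : ℤ) ^ 2) ∣ (n : ℤ) * p * (rr g 1 : ℤ) ^ (n - 1) *
        ∑ k ∈ range (p - 1), (rr g k : ℤ) ^ (n - 1) * (ee g k : ℤ) :=
    (dvd_add_right (h1.mul_left _)).1 h3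
  have hp0 : (p : ℤ) ≠ 0 := by exact_mod_cast hp.out.ne_zero
  have h5 : (p : ℤ) ∣ (n : ℤ) * (rr g 1 : ℤ) ^ (n - 1) *
        ∑ k ∈ range (p - 1), (rr g k : ℤ) ^ (n - 1) * (ee g k : ℤ) := by
    obtain ⟨c, hc⟩ := h4
    refine ⟨c, ?_⟩
    apply mul_left_cancel₀ hp0
    linear_combination hc
  have h6 := (ZMod.intCast_zmod_eq_zero_iff_dvd _ p).2 h5
  push_cast at h6
  rw [rr_cast, pow_one] at h6
  simp only [rr_cast] at h6
  rw [mul_eq_zero, mul_eq_zero] at h6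
  rcases h6 with (h6 | h6) | h6
  · exfalso
    rw [ZMod.natCast_eq_zero_iff] at h6
    have := Nat.le_of_dvd (by omega) h6
    omega
  · exfalso
    exact (g.isUnit.pow (n - 1)).ne_zero h6
  · exact h6

end Pool.Agent.H42R3
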