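import Mathlib
import Pool.Agent.H42R3.Bern
import Pool.Agent.H916R2.OddChar
import Pool.Agent.Helper112.MultLS

/-! The complex part: `∑ a χ(a)` is nonzero for odd `χ` and at most `p ^ (3/2) (1 + log p) / 2`. -/

set_option autoImplicit false

namespace Pool.Agent.H42R3

open Finset

variable {p : ℕ} [hp : Fact p.Prime]

lemma exists_char (g : (ZMod p)ˣ) (hg : orderOf g = p - 1) (μ : ℂ) (hμ : μ ^ (p - 1) = 1) :
    ∃ χ : DirichletCharacter ℂ p, χ (g : ZMod p) = μ := by
  have hp1 := hp.out.one_lt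
  have hcard : Fintype.card (ZMod p)ˣ = p - 1 := by
    rw [ZMod.card_units_eq_totient, Nat.totient_prime hp.out]
  have hgen : ∀ x, x ∈ Subgroup.zpowers g := by
    have htop : Subgroup.zpowers g = ⊤ := by
      apply Subgroup.eq_top_of_card_eq
      rw [Nat.card_zpowers, hg, Nat.card_eq_fintype_card, hcard]
    intro x
    rw [htop]
    exact Subgroup.mem_top _
  have hμ0 : μ ≠ 0 := by
    rintro rfl
    rw [zero_pow (by omega)] at hμ
    exact zero_ne_one hμ
  have hmem : Units.mk0 μ hμ0 ∈ rootsOfUnity (Fintype.card (ZMod p)ˣ) ℂ := by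
    rw [mem_rootsOfUnity, hcard]
    apply Units.ext
    rw [Units.val_pow_eq_pow_val, Units.val_mk0, hμ, Units.val_one]
  exact ⟨MulChar.ofRootOfUnity hmem hgen, MulChar.ofRootOfUnity_spec hmem hgen⟩

lemma TT_eq (g : (ZMod p)ˣ) (hg : orderOf g = p - 1) (χ : DirichletCharacter ℂ p) :
    TT g (χ (g : ZMod p)) = ∑ a ∈ range p, χ ((a : ℕ) : ZMod p) * (a : ℂ) := by
  have h1 : TT g (χ (g : ZMod p)) = ∑ k ∈ range (p - 1),
      (fun a : ℕ => χ ((a : ℕ) : ZMod p) * (a : ℂ)) (rr g k) := by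
    unfold TT
    apply Finset.sum_congr rfl
    intro k _
    simp only [rr_cast, map_pow]
  rw [h1, sum_rr g hg (fun a : ℕ => χ ((a : ℕ) : ZMod p) * (a : ℂ))]
  rw [Finset.range_eq_Ico, Finset.sum_eq_sum_Ico_succ_bot hp.out.pos]
  simp

lemma sum_range_zmod (f : ZMod p → ℂ) : ∑ a ∈ range p, f ((a : ℕ) : ZMod p) = ∑ a : ZMod p, f a := by
  have : NeZero p := ⟨hp.out.ne_zero⟩
  symm
  apply Finset.sum_bij (fun (a : ZMod p) _ => a.val)
  · intro a _
    exact Finset.mem_range.2 (ZMod.val_lt a)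
  · intro a _ b _ h
    exact ZMod.val_injective p h
  · intro b hb
    exact ⟨(b : ZMod p), Finset.mem_univ _, ZMod.val_cast_of_lt (Finset.mem_range.1 hb)⟩
  · intro a _
    rw [ZMod.natCast_val, ZMod.cast_id]

lemma TT_ne_zero (g : (ZMod p)ˣ) (hg : orderOf g = p - 1) (χ : DirichletCharacter ℂ p)
    (hodd : χ.Odd) (h2 : 2 < p) : TT g (χ (g : ZMod p)) ≠ 0 := by
  have : NeZero p := ⟨hp.out.ne_zero⟩
  intro h0
  rw [TT_eq g hg] at h0
  obtain ⟨a, ha⟩ := Pool.Agent.H916R2.exists_SS_ne_zero χ hodd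
  apply ha
  have hχ1 : χ ≠ 1 := by
    rintro rfl
    unfold DirichletCharacter.Odd at hodd
    rw [MulChar.one_apply (by simp : IsUnit (-1 : ZMod p))] at hodd
    norm_num at hodd
  have hunit : ∀ f : ZMod p → ℂ, f 0 = 0 → ∑ t : (ZMod p)ˣ, f t = ∑ t : ZMod p, f t := by
    intro f hf
    rw [← Finset.sum_filter_add_sum_filter_not Finset.univ (fun a : ZMod p => a ≠ 0) f]
    have e1 : ∑ a ∈ Finset.univ.filter (fun a : ZMod p => ¬ a ≠ 0), f a = 0 := by
      apply Finset.sum_eq_zero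
      intro x hx
      rw [Finset.mem_filter, not_not] at hx
      rw [hx.2, hf]
    rw [e1, add_zero]
    apply Finset.sum_bij (fun (t : (ZMod p)ˣ) _ => (t : ZMod p))
    · intro t _
      rw [Finset.mem_filter]
      exact ⟨Finset.mem_univ _, t.ne_zero⟩
    · intro a _ b _ h
      exact Units.ext h
    · intro b hb
      rw [Finset.mem_filter] at hb
      exact ⟨Units.mk0 b hb.2, Finset.mem_univ _, rfl⟩
    · intro t _
      rfl
  unfold Pool.Agent.H916R2.SS
  by_cases ha0 : a = 0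
  · subst ha0
    apply Finset.sum_eq_zero
    intro t _
    rw [mul_zero, Pool.Agent.H916R2.saw_zero]
    simp
  · rw [hunit (fun t => χ t * (Pool.Agent.H916R2.saw (t * a) : ℂ)) (by
      simp [Pool.Agent.H916R2.saw_zero])]
    have e2 : ∑ t : ZMod p, χ t * (Pool.Agent.H916R2.saw (t * a) : ℂ) =
        χ a⁻¹ * ∑ t : ZMod p, χ t * (Pool.Agent.H916R2.saw t : ℂ) := by
      rw [Finset.mul_sum]
      apply Fintype.sum_bijective (fun t => t * a) (mulRight_bijective₀ a ha0)
      intro t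
      rw [← mul_assoc, ← map_mul]
      congr 2
      field_simp
    have e3 : ∑ t : ZMod p, χ t * (Pool.Agent.H916R2.saw t : ℂ) = 0 := by
      have e4 : ∑ t : ZMod p, χ t * (Pool.Agent.H916R2.saw t : ℂ) =
          ∑ t : ZMod p, (2 * (χ t * (t.val : ℂ)) - p * χ t) := by
        apply Finset.sum_congr rfl
        intro t _
        by_cases ht : t = 0
        · subst ht
          have : χ (0 : ZMod p) = 0 := χ.map_nonunit (by simp)
          rw [this]
          ring
        · unfold Pool.Agent.H916R2.saw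
          rw [if_neg ht]
          push_cast
          ring
      rw [e4, Finset.sum_sub_distrib, ← Finset.mul_sum, ← Finset.mul_sum,
        MulChar.sum_eq_zero_of_ne_one hχ1, mul_zero, sub_zero]
      have e5 : ∑ t : ZMod p, χ t * (t.val : ℂ) = 0 := by
        rw [← sum_range_zmod (fun t => χ t * (t.val : ℂ)), ← h0]
        apply Finset.sum_congr rfl
        intro b hb
        rw [ZMod.val_cast_of_lt (Finset.mem_range.1 hb)]
      rw [e5, mul_zero]
    rw [e2, e3, mul_zero]

end Pool.Agent.H42R3
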