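import Mathlib
import Pool.Agent.H42R3.Cx

/-! The complex part: upper bound. -/

set_option autoImplicit false

namespace Pool.Agent.H42R3

open Finset

variable {p : ℕ} [hp : Fact p.Prime]

lemma isPrimitive_of_ne_one (χ : DirichletCharacter ℂ p) (h : χ ≠ 1) : χ.IsPrimitive := by
  have h1 := χ.conductor_dvd_level
  rcases (Nat.dvd_prime hp.out).1 h1 with h2 | h2
  · exact absurd ((DirichletCharacter.eq_one_iff_conductor_eq_one (χ := χ)).mpr h2) h
  · exact h2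

lemma geom_id (x : ℂ) (hx : x ^ p = 1) (hx1 : x ≠ 1) :
    (∑ a ∈ range p, (a : ℂ) * x ^ a) * (x - 1) = p := by
  have key : ∀ n : ℕ, (∑ a ∈ range n, (a : ℂ) * x ^ a) * (x - 1) =
      n * x ^ n - ∑ a ∈ range n, x ^ (a + 1) := by
    intro n
    induction n with
    | zero => simp
    | succ n ih =>
      rw [Finset.sum_range_succ, add_mul, ih, Finset.sum_range_succ]
      push_cast
      ring
  rw [key p, hx, mul_one]
  have h1 : ∑ a ∈ range p, x ^ (a + 1) = 0 := by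
    have h2 : ∑ a ∈ range p, x ^ (a + 1) = x * ∑ a ∈ range p, x ^ a := by
      rw [Finset.mul_sum]
      apply Finset.sum_congr rfl
      intro a _
      rw [pow_succ']
    rw [h2]
    have h3 := geom_sum_eq hx1 p
    rw [h3, hx, sub_self, zero_div, mul_zero]
  rw [h1, sub_zero]

lemma norm_sub_one_ge {v : ℕ} (h1 : 0 < v) (h2 : v < p) :
    4 * (min (v : ℝ) (p - v)) / p ≤ ‖Complex.exp (2 * Real.pi * Complex.I * (v : ℤ) / p) - 1‖ := by
  have hp0 : (0 : ℝ) < p := by exact_mod_cast hp.out.pos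
  have hv0 : (0 : ℝ) < v := by exact_mod_cast h1
  have hvp : (v : ℝ) < p := by exact_mod_cast h2
  have hpi := Real.pi_pos
  have e1 : (2 * Real.pi * Complex.I * (v : ℤ) / p : ℂ) =
      Complex.I * ((2 * Real.pi * v / p : ℝ) : ℂ) := by
    push_cast
    ring
  rw [e1, Complex.norm_exp_I_mul_ofReal_sub_one, Real.norm_eq_abs]
  have e2 : 2 * Real.pi * v / p / 2 = Real.pi * v / p := by ring
  rw [e2]
  refine le_trans ?_ (le_abs_self _)
  have hx0 : 0 ≤ Real.pi * v / p := by positivity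
  have hxpi : Real.pi * v / p ≤ Real.pi := by
    rw [div_le_iff₀ hp0]
    nlinarith
  rcases le_total (Real.pi * v / p) (Real.pi / 2) with h | h
  · have h3 := Real.mul_le_sin hx0 h
    have h4 : 2 / Real.pi * (Real.pi * v / p) = 2 * v / p := by
      field_simp
    rw [h4] at h3
    calc 4 * (min (v : ℝ) (p - v)) / p ≤ 4 * (v : ℝ) / p := by
          gcongr
          exact min_le_left _ _
      _ = 2 * (2 * v / p) := by ring
      _ ≤ 2 * Real.sin (Real.pi * v / p) := by linarith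
  · have h3 := Real.mul_le_sin (x := Real.pi - Real.pi * v / p) (by linarith) (by linarith)
    rw [Real.sin_pi_sub] at h3
    have h4 : 2 / Real.pi * (Real.pi - Real.pi * v / p) = 2 * (p - v) / p := by
      field_simp
    rw [h4] at h3
    calc 4 * (min (v : ℝ) (p - v)) / p ≤ 4 * ((p : ℝ) - v) / p := by
          gcongr
          exact min_le_right _ _
      _ = 2 * (2 * (p - v) / p) := by ring
      _ ≤ 2 * Real.sin (Real.pi * v / p) := by linarith

lemma inv_min_le {v : ℕ} (h1 : 0 < v) (h2 : v < p) :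
    (p : ℝ) * ‖Complex.exp (2 * Real.pi * Complex.I * (v : ℤ) / p) - 1‖⁻¹ ≤
      (p : ℝ) ^ 2 / 4 * ((v : ℝ)⁻¹ + ((p - v : ℕ) : ℝ)⁻¹) := by
  have hp0 : (0 : ℝ) < p := by exact_mod_cast hp.out.pos
  have hv0 : (0 : ℝ) < v := by exact_mod_cast h1
  have hvp : (v : ℝ) < p := by exact_mod_cast h2
  have hge := norm_sub_one_ge h1 h2
  have hmin : 0 < min (v : ℝ) (p - v) := lt_min hv0 (by linarith)
  have h3 : ‖Complex.exp (2 * Real.pi * Complex.I * (v : ℤ) / p) - 1‖⁻¹ ≤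
      (4 * (min (v : ℝ) (p - v)) / p)⁻¹ := by
    apply inv_anti₀ (by positivity) hge
  have h4 : (min (v : ℝ) (p - v))⁻¹ ≤ (v : ℝ)⁻¹ + ((p - v : ℕ) : ℝ)⁻¹ := by
    rw [Nat.cast_sub h2.le]
    have i1 : 0 < (v : ℝ)⁻¹ := by positivity
    have i2 : 0 < ((p : ℝ) - v)⁻¹ := inv_pos.2 (by linarith)
    rcases min_choice (v : ℝ) (p - v) with h | h
    · rw [h]; linarith
    · rw [h]; linarith
  calc (p : ℝ) * ‖Complex.exp (2 * Real.pi * Complex.I * (v : ℤ) / p) - 1‖⁻¹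
      ≤ p * (4 * (min (v : ℝ) (p - v)) / p)⁻¹ := by gcongr
    _ = (p : ℝ) ^ 2 / 4 * (min (v : ℝ) (p - v))⁻¹ := by
        field_simp
    _ ≤ _ := by gcongr

lemma sum_inv_le : ∑ v ∈ Ico 1 p, ((v : ℝ)⁻¹ + ((p - v : ℕ) : ℝ)⁻¹) ≤ 2 * (1 + Real.log p) := by
  rw [Finset.sum_add_distrib]
  have h1 : ∑ v ∈ Ico 1 p, ((p - v : ℕ) : ℝ)⁻¹ = ∑ v ∈ Ico 1 p, (v : ℝ)⁻¹ := by
    apply Finset.sum_bij (fun v _ => p - v)
    · intro v hv
      rw [Finset.mem_Ico] at hv ⊢
      omega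
    · intro a ha b hb h
      rw [Finset.mem_Ico] at ha hb
      omega
    · intro b hb
      rw [Finset.mem_Ico] at hb
      exact ⟨p - b, by rw [Finset.mem_Ico]; omega, by omega⟩
    · intro v _
      rfl
  rw [h1]
  have h2 : ∑ v ∈ Ico 1 p, (v : ℝ)⁻¹ ≤ 1 + Real.log p := by
    have h3 := harmonic_le_one_add_log (p - 1)
    have h4 : ((harmonic (p - 1) : ℚ) : ℝ) = ∑ v ∈ Ico 1 p, (v : ℝ)⁻¹ := by
      rw [harmonic_eq_sum_Icc]
      push_cast
      apply Finset.sum_congr _ (fun _ _ => rfl)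
      ext x
      have := hp.out.one_lt
      rw [Finset.mem_Icc, Finset.mem_Ico]
      omega
    rw [h4] at h3
    have h5 : Real.log ((p - 1 : ℕ) : ℝ) ≤ Real.log p := by
      have := hp.out.one_lt
      apply Real.log_le_log
      · have : 0 < p - 1 := by omega
        exact_mod_cast this
      · have : p - 1 ≤ p := by omega
        exact_mod_cast this
    linarith
  linarith

lemma norm_TT_le (χ : DirichletCharacter ℂ p) (hχ : χ ≠ 1) :
    ‖∑ a ∈ range p, χ ((a : ℕ) : ZMod p) * (a : ℂ)‖ ≤ p * √(p : ℝ) * ((1 + Real.log p) / 2) := by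
  have : NeZero p := ⟨hp.out.ne_zero⟩
  have hp0 : (0 : ℝ) < p := by exact_mod_cast hp.out.pos
  have hinv : χ⁻¹ ≠ 1 := by
    intro h
    exact hχ (inv_eq_one.1 h)
  have hprim := isPrimitive_of_ne_one χ⁻¹ hinv
  set ψ : AddChar (ZMod p) ℂ := ZMod.stdAddChar with hψ
  set G := gaussSum χ⁻¹ ψ with hG
  have hGn : ‖G‖ ^ 2 = p := Pool.Agent.Helper112.MLS.norm_gauss p hprim
  have hGs : ‖G‖ = √(p : ℝ) := by
    rw [← hGn, Real.sqrt_sq (norm_nonneg _)]
  have h1 : ∀ n : ZMod p, ∑ b : ZMod p, χ⁻¹ b * ψ (n * b) = χ n * G := by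
    intro n
    have := gaussSum_mulShift_of_isPrimitive ψ hprim n
    rw [inv_inv] at this
    rw [← this]
    rfl
  have h2 : (∑ a ∈ range p, χ ((a : ℕ) : ZMod p) * (a : ℂ)) * G =
      ∑ b : ZMod p, χ⁻¹ b * ∑ a ∈ range p, (a : ℂ) * (ψ b) ^ a := by
    have e1 : (∑ a ∈ range p, χ ((a : ℕ) : ZMod p) * (a : ℂ)) * G =
        ∑ a ∈ range p, (a : ℂ) * ∑ b : ZMod p, χ⁻¹ b * ψ ((a : ZMod p) * b) := by
      rw [Finset.sum_mul]
      apply Finset.sum_congr rfl
      intro a _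
      rw [h1]
      ring
    rw [e1]
    simp_rw [Finset.mul_sum]
    rw [Finset.sum_comm]
    apply Finset.sum_congr rfl
    intro b _
    apply Finset.sum_congr rfl
    intro a _
    rw [← nsmul_eq_mul a b, AddChar.map_nsmul_eq_pow]
    ring
  have h3 : ‖∑ b : ZMod p, χ⁻¹ b * ∑ a ∈ range p, (a : ℂ) * (ψ b) ^ a‖ ≤
      (p : ℝ) ^ 2 / 4 * (2 * (1 + Real.log p)) := by
    rw [← sum_range_zmod (fun b => χ⁻¹ b * ∑ a ∈ range p, (a : ℂ) * (ψ b) ^ a)]
    rw [Finset.range_eq_Ico, Finset.sum_eq_sum_Ico_succ_bot hp.out.pos]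
    have e0 : χ⁻¹ (((0 : ℕ) : ZMod p)) = 0 := (χ⁻¹).map_nonunit (by simp)
    rw [e0, zero_mul, zero_add]
    refine (norm_sum_le _ _).trans ?_
    refine le_trans ?_ (mul_le_mul_of_nonneg_left (sum_inv_le (p := p)) (by positivity))
    rw [Finset.mul_sum]
    apply Finset.sum_le_sum
    intro v hv
    rw [Finset.mem_Ico] at hv
    have hψv : ψ ((v : ℕ) : ZMod p) = Complex.exp (2 * Real.pi * Complex.I * (v : ℤ) / p) := by
      have := ZMod.stdAddChar_coe (N := p) (v : ℤ)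
      rw [Int.cast_natCast] at this
      rw [hψ, this]
    have hv0 : ((v : ℕ) : ZMod p) ≠ 0 := by
      intro h
      rw [ZMod.natCast_eq_zero_iff] at h
      have := Nat.le_of_dvd (by omega) h
      omega
    have hx1 : ψ ((v : ℕ) : ZMod p) ≠ 1 := by
      rw [hψ, ← (ZMod.stdAddChar (N := p)).map_zero_eq_one, Ne, ZMod.injective_stdAddChar.eq_iff]
      exact hv0
    have hxp : (ψ ((v : ℕ) : ZMod p)) ^ p = 1 := by
      rw [← AddChar.map_nsmul_eq_pow]
      simp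
    have hg := geom_id (p := p) (ψ ((v : ℕ) : ZMod p)) hxp hx1
    have hne : ψ ((v : ℕ) : ZMod p) - 1 ≠ 0 := sub_ne_zero.2 hx1
    have hinner : ‖∑ a ∈ Ico 0 p, (a : ℂ) * (ψ ((v : ℕ) : ZMod p)) ^ a‖ =
        p * ‖ψ ((v : ℕ) : ZMod p) - 1‖⁻¹ := by
      rw [← Finset.range_eq_Ico, eq_div_of_mul_eq hne hg, norm_div, Complex.norm_natCast, div_eq_mul_inv]
    rw [norm_mul, hinner, hψv]
    have hle : ‖χ⁻¹ ((v : ℕ) : ZMod p)‖ ≤ 1 := DirichletCharacter.norm_le_one _ _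
    calc ‖χ⁻¹ ((v : ℕ) : ZMod p)‖ * (p * ‖Complex.exp (2 * Real.pi * Complex.I * (v : ℤ) / p) - 1‖⁻¹)
        ≤ 1 * (p * ‖Complex.exp (2 * Real.pi * Complex.I * (v : ℤ) / p) - 1‖⁻¹) := by gcongr
      _ ≤ _ := by
        rw [one_mul]
        exact inv_min_le (by omega) hv.2
  rw [← h2, norm_mul, hGs] at h3
  have hs : 0 < √(p : ℝ) := Real.sqrt_pos.2 hp0
  have hss : √(p : ℝ) * √(p : ℝ) = p := Real.mul_self_sqrt hp0.le
  refine le_of_mul_le_mul_right ?_ hs
  refine h3.trans (le_of_eq ?_)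
  have : (p : ℝ) * √(p : ℝ) * ((1 + Real.log p) / 2) * √(p : ℝ) =
      (p : ℝ) * ((1 + Real.log p) / 2) * (√(p : ℝ) * √(p : ℝ)) := by ring
  rw [this, hss]
  ring

end Pool.Agent.H42R3
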