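import Mathlib
import Pool.Agent.H42R3.Bern

/-! The Teichmüller root and the divisibility of `∑ a χ(a)` by powers of `p`. -/

set_option autoImplicit false

namespace Pool.Agent.H42R3

open Finset Polynomial

variable {p : ℕ} [hp : Fact p.Prime]

lemma dvd_iff_toZMod (x : ℤ_[p]) : (p : ℤ_[p]) ∣ x ↔ PadicInt.toZMod x = 0 := by
  rw [← RingHom.mem_ker, PadicInt.ker_toZMod, PadicInt.maximalIdeal_eq_span_p,
    Ideal.mem_span_singleton]

lemma exists_teich (g : (ZMod p)ˣ) (hg : orderOf g = p - 1) :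
    ∃ w : ℤ_[p], IsPrimitiveRoot w (p - 1) ∧ PadicInt.toZMod w = (g : ZMod p) := by
  have hp1 := hp.out.one_lt
  set F : ℤ_[p][X] := X ^ (p - 1) - 1 with hF
  set a : ℤ_[p] := ((g : ZMod p).val : ℤ_[p]) with ha
  have hta : PadicInt.toZMod a = (g : ZMod p) := by
    rw [ha, map_natCast, ZMod.natCast_val, ZMod.cast_id]
  have hFa : ‖F.aeval a‖ < 1 := by
    rw [← PadicInt.mem_nonunits, ← IsLocalRing.mem_maximalIdeal, ← PadicInt.ker_toZMod,
      RingHom.mem_ker]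
    simp only [hF, map_sub, map_pow, aeval_X, map_one, hta, gpow, sub_self]
  have hF' : ‖F.derivative.aeval a‖ = 1 := by
    rw [← PadicInt.isUnit_iff]
    by_contra hcon
    have h1 : F.derivative.aeval a ∈ IsLocalRing.maximalIdeal ℤ_[p] := by
      rw [IsLocalRing.mem_maximalIdeal]
      exact hcon
    rw [← PadicInt.ker_toZMod, RingHom.mem_ker] at h1
    simp only [hF, derivative_sub, derivative_X_pow, derivative_one, sub_zero, map_mul, map_pow,
      aeval_X, map_natCast, hta] at h1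
    rw [mul_eq_zero] at h1
    rcases h1 with h1 | h1
    · rw [ZMod.natCast_eq_zero_iff] at h1
      have := Nat.le_of_dvd (by omega) h1
      omega
    · exact (g.isUnit.pow (p - 1 - 1)).ne_zero h1
  obtain ⟨w, hw, hwa, -, -⟩ := hensels_lemma (F := F) (a := a) (by rw [hF']; simpa using hFa)
  rw [hF'] at hwa
  have htw : PadicInt.toZMod w = (g : ZMod p) := by
    rw [← PadicInt.mem_nonunits, ← IsLocalRing.mem_maximalIdeal, ← PadicInt.ker_toZMod,
      RingHom.mem_ker, map_sub, sub_eq_zero, hta] at hwa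
    exact hwa
  have hw1 : w ^ (p - 1) = 1 := by
    simp only [hF, map_sub, map_pow, aeval_X, map_one] at hw
    exact sub_eq_zero.1 hw
  refine ⟨w, ?_, htw⟩
  refine ⟨hw1, ?_⟩
  intro l hl
  have h1 : (g : ZMod p) ^ l = 1 := by
    rw [← htw, ← map_pow, hl, map_one]
  have h2 : g ^ l = 1 := by
    apply Units.ext
    rw [Units.val_pow_eq_pow_val, h1, Units.val_one]
  rw [← hg]
  exact orderOf_dvd_of_pow_eq_one h2

/-- `1 - c z` is a unit -/
lemma unit_of (g : (ZMod p)ˣ) (hg : orderOf g = p - 1) {w : ℤ_[p]}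
    (hw : PadicInt.toZMod w = (g : ZMod p)) (i : ℕ) (hi : ¬ (p - 1) ∣ i + 1) :
    IsUnit (1 - (rr g 1 : ℤ_[p]) * w ^ i) := by
  by_contra hcon
  have h1 : 1 - (rr g 1 : ℤ_[p]) * w ^ i ∈ IsLocalRing.maximalIdeal ℤ_[p] := by
    rw [IsLocalRing.mem_maximalIdeal]
    exact hcon
  rw [← PadicInt.ker_toZMod, RingHom.mem_ker] at h1
  rw [map_sub, map_one, map_mul, map_natCast, rr_cast, pow_one, map_pow, hw, ← pow_succ',
    sub_eq_zero] at h1
  apply hi
  have h2 : g ^ (i + 1) = 1 := by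
    apply Units.ext
    rw [Units.val_pow_eq_pow_val, ← h1, Units.val_one]
  rw [← hg]
  exact orderOf_dvd_of_pow_eq_one h2

lemma dvd_TT (g : (ZMod p)ˣ) (hg : orderOf g = p - 1) {w : ℤ_[p]}
    (hwp : w ^ (p - 1) = 1) (hw : PadicInt.toZMod w = (g : ZMod p)) (i : ℕ)
    (hi : ¬ (p - 1) ∣ i + 1) : (p : ℤ_[p]) ∣ TT g (w ^ i) := by
  have hz : (w ^ i) ^ (p - 1) = 1 := by rw [← pow_mul, mul_comm, pow_mul, hwp, one_pow]
  have h1 := TT_ident g (w ^ i) hz
  have h2 : (p : ℤ_[p]) ∣ (1 - (rr g 1 : ℤ_[p]) * w ^ i) * TT g (w ^ i) := by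
    rw [h1, mul_assoc, dvd_neg]
    exact dvd_mul_right _ _
  exact ((unit_of g hg hw i hi).dvd_mul_left).1 h2

lemma sq_dvd_TT (g : (ZMod p)ˣ) (hg : orderOf g = p - 1) {w : ℤ_[p]}
    (hwp : w ^ (p - 1) = 1) (hw : PadicInt.toZMod w = (g : ZMod p)) (i : ℕ)
    (hi1 : 1 ≤ i) (hi2 : i + 4 ≤ p)
    (hd : (p : ℤ) ∣ (_root_.bernoulli (1 + i)).num) : (p : ℤ_[p]) ^ 2 ∣ TT g (w ^ i) := by
  have hi : ¬ (p - 1) ∣ i + 1 := by
    intro h
    have := Nat.le_of_dvd (by omega) h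
    omega
  have hz : (w ^ i) ^ (p - 1) = 1 := by rw [← pow_mul, mul_comm, pow_mul, hwp, one_pow]
  have h1 := TT_ident g (w ^ i) hz
  have h3 := dvd_sum_ee g hg (n := 1 + i) (by omega) (by omega) hd
  have h4 : (p : ℤ_[p]) ∣ ∑ k ∈ range (p - 1), (w ^ i) ^ k * (ee g k : ℤ_[p]) := by
    rw [dvd_iff_toZMod, map_sum]
    rw [← h3]
    apply Finset.sum_congr rfl
    intro k _
    rw [map_mul, map_pow, map_pow, hw, map_natCast, ← pow_mul, ← pow_mul, mul_comm i k,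
      show 1 + i - 1 = i by omega]
  obtain ⟨c, hc⟩ := h4
  have h2 : (p : ℤ_[p]) ^ 2 ∣ (1 - (rr g 1 : ℤ_[p]) * w ^ i) * TT g (w ^ i) := by
    rw [h1, hc, dvd_neg]
    exact ⟨w ^ i * c, by ring⟩
  exact ((unit_of g hg hw i hi).dvd_mul_left).1 h2

end Pool.Agent.H42R3
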