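import Mathlib
import Pool.Agent.H42R3.Teich
import Pool.Agent.H42R3.Cx2

/-! Irregular indices in a Galois orbit of characters. -/

set_option autoImplicit false

namespace Pool.Agent.H42R3

open Finset Polynomial

variable {p : ℕ} [hp : Fact p.Prime]

/-- the polynomial `∑ r_k X ^ k` -/
noncomputable def FF (g : (ZMod p)ˣ) : ℤ[X] := ∑ k ∈ range (p - 1), C (rr g k : ℤ) * X ^ k

lemma FF_deg (g : (ZMod p)ˣ) : (FF g).natDegree ≤ p := by
  unfold FF
  apply natDegree_sum_le_of_forall_le
  intro k hk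
  rw [Finset.mem_range] at hk
  refine (natDegree_C_mul_X_pow_le _ _).trans ?_
  omega

lemma FF_eval (g : (ZMod p)ˣ) {R : Type*} [CommRing R] (z : R) :
    ((FF g).map (Int.castRingHom R)).eval z = TT g z := by
  unfold FF TT
  rw [Polynomial.map_sum, eval_finsetSum]
  apply Finset.sum_congr rfl
  intro k _
  simp
  ring

/-- the norm -/
noncomputable def DD (g : (ZMod p)ˣ) (m : ℕ) : ℤ :=
  (cyclotomic m ℤ).resultant (FF g) (Nat.totient m) p

lemma DD_eq (g : (ZMod p)ˣ) (m : ℕ) {R : Type*} [CommRing R] [IsDomain R] [NeZero (m : R)]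
    {z0 : R} (h0 : IsPrimitiveRoot z0 m) :
    ((DD g m : ℤ) : R) = ∏ z ∈ primitiveRoots m R, TT g z := by
  have h1 : ((DD g m : ℤ) : R) =
      ((cyclotomic m ℤ).map (Int.castRingHom R)).resultant ((FF g).map (Int.castRingHom R))
        (Nat.totient m) p := by
    rw [resultant_map_map]
    rfl
  have hsp : (cyclotomic m R).Splits := by
    rw [cyclotomic_eq_prod_X_sub_primitiveRoots h0]
    exact Splits.prod (fun _ _ => Splits.X_sub_C _)
  have h2 := resultant_eq_prod_eval (cyclotomic m R) ((FF g).map (Int.castRingHom R)) p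
    (natDegree_map_le.trans (FF_deg g)) hsp
  rw [natDegree_cyclotomic] at h2
  rw [h1, map_cyclotomic, h2, (cyclotomic.monic m R).leadingCoeff, one_pow, one_mul,
    cyclotomic.roots_eq_primitiveRoots_val]
  rw [Finset.prod_eq_multiset_prod]
  congr 1
  apply Multiset.map_congr rfl
  intro z _
  exact FF_eval g z

/-- the irregular indices `1 + d j`, `(j, m) = 1` -/
def JJ (p m d : ℕ) : Finset ℕ :=
  (range m).filter (fun j => j.Coprime m ∧ 1 + d * j + 3 ≤ p ∧
    (p : ℤ) ∣ (_root_.bernoulli (1 + d * j)).num)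

lemma padic_dvd (g : (ZMod p)ˣ) (hg : orderOf g = p - 1) {m d : ℕ} (hm2 : 2 ≤ m)
    (hmd : m * d = p - 1) (hd : Odd d) :
    ((p : ℤ) ^ (Nat.totient m + (JJ p m d).card)) ∣ DD g m * (if d = 1 then (p : ℤ) else 1) := by
  classical
  have hp1 := hp.out.one_lt
  obtain ⟨w, hw, hwg⟩ := exists_teich g hg
  have hpos : 0 < p - 1 := by omega
  have hz0 : IsPrimitiveRoot (w ^ d) m := hw.pow hpos (by rw [← hmd, mul_comm])
  have hm0 : (m : ℤ_[p]) ≠ 0 := by
    exact_mod_cast (show m ≠ 0 by omega)
  have : NeZero (m : ℤ_[p]) := ⟨hm0⟩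
  have hNm : NeZero m := ⟨by omega⟩
  have hprod := DD_eq (R := ℤ_[p]) g m hz0
  have hd1 : 1 ≤ d := hd.pos
  set S := primitiveRoots m ℤ_[p] with hS
  set I := (JJ p m d).image (fun j => w ^ (d * j)) with hI
  have hIS : I ⊆ S := by
    intro z hz
    rw [hI, Finset.mem_image] at hz
    obtain ⟨j, hj, rfl⟩ := hz
    unfold JJ at hj
    rw [Finset.mem_filter] at hj
    rw [hS, mem_primitiveRoots (by omega), pow_mul]
    exact hz0.pow_of_coprime j hj.2.1
  have hIc : I.card = (JJ p m d).card := by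
    rw [hI]
    apply Finset.card_image_of_injOn
    intro a ha b hb hab
    have ha' := (Finset.mem_filter.1 (Finset.mem_coe.1 ha)).1
    have hb' := (Finset.mem_filter.1 (Finset.mem_coe.1 hb)).1
    rw [Finset.mem_range] at ha' hb'
    simp only [pow_mul] at hab
    exact hz0.pow_inj ha' hb' hab
  have hwp : w ^ (p - 1) = 1 := hw.pow_eq_one
  have key : ∀ z ∈ S, (p : ℤ_[p]) ^ (1 + (if z ∈ I then 1 else 0)) ∣
      TT g z * (if z = w ^ (p - 2) then (p : ℤ_[p]) else 1) := by
    intro z hz
    rw [hS, mem_primitiveRoots (by omega), hz0.isPrimitiveRoot_iff] at hz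
    obtain ⟨j, hj, hjc, rfl⟩ := hz
    rw [← pow_mul]
    have hj0 : 1 ≤ j := by
      rw [Nat.one_le_iff_ne_zero]
      rintro rfl
      rw [Nat.coprime_zero_left] at hjc
      omega
    have hdj : d * j + d ≤ p - 1 := by
      rw [← hmd]
      nlinarith
    by_cases hIn : w ^ (d * j) ∈ I
    · rw [if_pos hIn]
      rw [hI, Finset.mem_image] at hIn
      obtain ⟨j', hj', he⟩ := hIn
      have hj'2 := (Finset.mem_filter.1 hj')
      have hjj : j' = j := by
        rw [pow_mul, pow_mul] at he
        exact hz0.pow_inj (Finset.mem_range.1 hj'2.1) hj he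
      subst hjj
      exact (sq_dvd_TT g hg hwp hwg (d * j') (by nlinarith) (by omega) hj'2.2.2.2).mul_right _
    · rw [if_neg hIn, add_zero, pow_one]
      by_cases hbad : w ^ (d * j) = w ^ (p - 2)
      · rw [if_pos hbad]
        exact dvd_mul_left _ _
      · rw [if_neg hbad, mul_one]
        apply dvd_TT g hg hwp hwg (d * j)
        intro hdiv
        have hle := Nat.le_of_dvd (by omega) hdiv
        apply hbad
        congr 1
        omega
  have h2 := Finset.prod_dvd_prod_of_dvd _ _ key
  rw [Finset.prod_mul_distrib, ← hprod, Finset.prod_pow_eq_pow_sum, Finset.sum_add_distrib,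
    Finset.sum_const, smul_eq_mul, mul_one, hS, hz0.card_primitiveRoots, ← hS] at h2
  have h3 : ∑ z ∈ S, (if z ∈ I then 1 else 0) = (JJ p m d).card := by
    rw [← hIc, Finset.sum_boole]
    simp only [Nat.cast_id]
    congr 1
    ext z
    rw [Finset.mem_filter]
    exact ⟨fun h => h.2, fun h => ⟨hIS h, h⟩⟩
  rw [h3, Finset.prod_ite_eq' S (w ^ (p - 2)) (fun _ => (p : ℤ_[p]))] at h2
  have h4 : (p : ℤ_[p]) ^ (Nat.totient m + (JJ p m d).card) ∣
      ((DD g m * (if d = 1 then (p : ℤ) else 1) : ℤ) : ℤ_[p]) := by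
    push_cast
    by_cases hdd : d = 1
    · rw [if_pos hdd]
      refine h2.trans (mul_dvd_mul_left _ ?_)
      split_ifs
      · push_cast; exact dvd_rfl
      · exact one_dvd _
    · rw [if_neg hdd]
      have hnot : w ^ (p - 2) ∉ S := by
        intro hmem
        rw [hS, mem_primitiveRoots (by omega), hz0.isPrimitiveRoot_iff] at hmem
        obtain ⟨j, hj, hjc, he⟩ := hmem
        rw [← pow_mul] at he
        have hdj : d * j + d ≤ p - 1 := by
          rw [← hmd]
          nlinarith
        have := hw.pow_inj (by omega) (by omega) he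
        omega
      rw [if_neg hnot] at h2
      simpa using h2
  have h5 := (PadicInt.pow_p_dvd_int_iff (p := p) (Nat.totient m + (JJ p m d).card)
    (DD g m * (if d = 1 then (p : ℤ) else 1))).1 (by exact_mod_cast h4)
  exact_mod_cast h5

end Pool.Agent.H42R3
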