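import Mathlib
import Pool.Agent.H42R3.Final

/-! Conclusion. -/

set_option autoImplicit false

namespace Pool.Agent.H42R3

open Finset Polynomial

variable {p : ℕ} [hp : Fact p.Prime]

lemma gen_half (g : (ZMod p)ˣ) (hg : orderOf g = p - 1) {h : ℕ} (hh : 2 * h = p - 1) (h1 : 1 ≤ h) :
    (g : ZMod p) ^ h = -1 := by
  have e1 : ((g : ZMod p) ^ h) ^ 2 = 1 := by
    rw [← pow_mul, mul_comm h 2, hh, gpow]
  have e2 : ((g : ZMod p) ^ h - 1) * ((g : ZMod p) ^ h + 1) = 0 := by linear_combination e1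
  rcases mul_eq_zero.1 e2 with e3 | e3
  · exfalso
    have e4 : g ^ h = 1 := by
      apply Units.ext
      rw [Units.val_pow_eq_pow_val, Units.val_one]
      exact sub_eq_zero.1 e3
    have e5 := orderOf_dvd_of_pow_eq_one e4
    rw [hg] at e5
    have := Nat.le_of_dvd (by omega) e5
    omega
  · exact eq_neg_of_add_eq_zero_left e3

lemma root_half {m h : ℕ} {μ : ℂ} (hμ : IsPrimitiveRoot μ m) (hh : m = 2 * h) (h1 : 1 ≤ h) :
    μ ^ h = -1 := by
  have e1 : (μ ^ h) ^ 2 = 1 := by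
    rw [← pow_mul, mul_comm h 2, ← hh, hμ.pow_eq_one]
  have e2 : (μ ^ h - 1) * (μ ^ h + 1) = 0 := by linear_combination e1
  rcases mul_eq_zero.1 e2 with e3 | e3
  · exfalso
    have e5 := hμ.dvd_of_pow_eq_one h (sub_eq_zero.1 e3)
    have := Nat.le_of_dvd (by omega) e5
    omega
  · exact eq_neg_of_add_eq_zero_left e3

lemma cx_bound (g : (ZMod p)ˣ) (hg : orderOf g = p - 1) {m d : ℕ} (hm : Even m)
    (hmd : m * d = p - 1) (hd : Odd d) (h3 : 3 ≤ p) {μ : ℂ} (hμ : IsPrimitiveRoot μ m) :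
    TT g μ ≠ 0 ∧ ‖TT g μ‖ ≤ p * √(p : ℝ) * ((1 + Real.log p) / 2) := by
  obtain ⟨h, hh⟩ := hm
  have hh2 : m = 2 * h := by omega
  have hm0 : m ≠ 0 := by
    rintro rfl
    omega
  have hh1 : 1 ≤ h := by omega
  have hμp : μ ^ (p - 1) = 1 := by
    rw [← hmd, pow_mul, hμ.pow_eq_one, one_pow]
  obtain ⟨χ, hχ⟩ := exists_char g hg μ hμp
  have hd1 := hd.pos
  have hodd : χ.Odd := by
    unfold DirichletCharacter.Odd
    have e1 := gen_half g hg (h := h * d) (by rw [← hmd, hh2]; ring) (Nat.mul_pos (by omega) hd1)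
    rw [← e1, map_pow, hχ, pow_mul, root_half hμ hh2 hh1, hd.neg_one_pow]
  have hχ1 : χ ≠ 1 := by
    rintro rfl
    unfold DirichletCharacter.Odd at hodd
    rw [MulChar.one_apply (by simp : IsUnit (-1 : ZMod p))] at hodd
    norm_num at hodd
  rw [← hχ]
  refine ⟨TT_ne_zero g hg χ hodd (by omega), ?_⟩
  rw [TT_eq g hg]
  exact norm_TT_le χ hχ1

lemma DD_bound (g : (ZMod p)ˣ) (hg : orderOf g = p - 1) {m d : ℕ} (hm : Even m)
    (hmd : m * d = p - 1) (hd : Odd d) (h3 : 3 ≤ p) :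
    DD g m ≠ 0 ∧ |(DD g m : ℝ)| ≤ (p * √(p : ℝ) * ((1 + Real.log p) / 2)) ^ (Nat.totient m) := by
  have hm0 : m ≠ 0 := by
    rintro rfl
    omega
  have : NeZero (m : ℂ) := ⟨by exact_mod_cast hm0⟩
  have hroot := Complex.isPrimitiveRoot_exp m hm0
  have hprod := DD_eq (R := ℂ) g m hroot
  have hz : ∀ z ∈ primitiveRoots m ℂ, IsPrimitiveRoot z m := fun z hz =>
    (mem_primitiveRoots (by omega)).1 hz
  constructor
  · intro h0
    rw [h0, Int.cast_zero] at hprod
    have := Finset.prod_ne_zero_iff.2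
      (fun z hzm => (cx_bound g hg hm hmd hd h3 (hz z hzm)).1)
    exact this hprod.symm
  · have e1 : |(DD g m : ℝ)| = ‖((DD g m : ℤ) : ℂ)‖ := by
      rw [Complex.norm_intCast]
    rw [e1, hprod, norm_prod]
    calc ∏ z ∈ primitiveRoots m ℂ, ‖TT g z‖
        ≤ ∏ _z ∈ primitiveRoots m ℂ, (p * √(p : ℝ) * ((1 + Real.log p) / 2)) :=
          Finset.prod_le_prod (fun _ _ => norm_nonneg _)
            (fun z hzm => (cx_bound g hg hm hmd hd h3 (hz z hzm)).2)
      _ = _ := by rw [Finset.prod_const, hroot.card_primitiveRoots]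

theorem main {m d : ℕ} (hm : Even m) (hmd : m * d = p - 1) (hd : Odd d) :
    (p : ℝ) ^ (JJ p m d).card ≤
      (if d = 1 then (p : ℝ) else 1) * (√(p : ℝ) * ((1 + Real.log p) / 2)) ^ (Nat.totient m) := by
  have hp1 := hp.out.one_lt
  have h3 : 3 ≤ p := by
    by_contra hcon
    have h2 : p = 2 := by omega
    rw [h2] at hmd
    obtain ⟨h, hh⟩ := hm
    have : m ∣ 1 := ⟨d, hmd.symm⟩
    have := Nat.dvd_one.1 this
    omega
  have hm2 : 2 ≤ m := by
    obtain ⟨h, hh⟩ := hm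
    have : m ≠ 0 := by
      rintro rfl
      omega
    omega
  have hp0 : (0 : ℝ) < p := by exact_mod_cast hp.out.pos
  obtain ⟨g, hg⟩ := exists_gen (p := p)
  have h4 := padic_dvd g hg hm2 hmd hd
  obtain ⟨h5, h6⟩ := DD_bound g hg hm hmd hd h3
  have h7 : (p : ℝ) ^ (Nat.totient m + (JJ p m d).card) ≤
      |(DD g m : ℝ)| * (if d = 1 then (p : ℝ) else 1) := by
    have hne : DD g m * (if d = 1 then (p : ℤ) else 1) ≠ 0 := by
      apply mul_ne_zero h5
      split_ifs
      · exact_mod_cast hp.out.ne_zero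
      · exact one_ne_zero
    have h8 := Int.le_of_dvd (abs_pos.2 hne) ((dvd_abs _ _).2 h4)
    have h9 : (((p : ℤ) ^ (Nat.totient m + (JJ p m d).card) : ℤ) : ℝ) ≤
        ((|DD g m * (if d = 1 then (p : ℤ) else 1)| : ℤ) : ℝ) := by exact_mod_cast h8
    rw [abs_mul] at h9
    push_cast at h9
    refine h9.trans (le_of_eq ?_)
    congr 1
    split_ifs
    · simp
    · simp
  have h10 : (p : ℝ) ^ (Nat.totient m) * (p : ℝ) ^ (JJ p m d).card ≤
      (p : ℝ) ^ (Nat.totient m) * ((if d = 1 then (p : ℝ) else 1) *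
        (√(p : ℝ) * ((1 + Real.log p) / 2)) ^ (Nat.totient m)) := by
    rw [← pow_add]
    refine h7.trans ?_
    have hnn : (0 : ℝ) ≤ (if d = 1 then (p : ℝ) else 1) := by split_ifs <;> positivity
    refine (mul_le_mul_of_nonneg_right h6 hnn).trans (le_of_eq ?_)
    rw [mul_assoc (p : ℝ), mul_pow (p : ℝ)]
    ring
  exact le_of_mul_le_mul_left h10 (by positivity)

theorem main_lt {m d : ℕ} (hm : Even m) (hmd : m * d = p - 1) (hd : Odd d) (hd1 : 1 < d) :
    (JJ p m d).card < Nat.totient m ∧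
    ((JJ p m d).card : ℝ) ≤
      (Nat.totient m) * (1 / 2 + Real.log ((1 + Real.log p) / 2) / Real.log p) := by
  have h1 := main (p := p) hm hmd hd
  rw [if_neg (by omega), one_mul] at h1
  have hp1 : (1 : ℝ) < p := by exact_mod_cast hp.out.one_lt
  have hp0 : (0 : ℝ) < p := by linarith
  have hm0 : 0 < m := by
    rcases Nat.eq_zero_or_pos m with h | h
    · subst h
      have := hp.out.one_lt
      omega
    · exact h
  have hφ : 0 < Nat.totient m := Nat.totient_pos.2 hm0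
  have hs : 0 < √(p : ℝ) := Real.sqrt_pos.2 hp0
  have hss : √(p : ℝ) * √(p : ℝ) = p := Real.mul_self_sqrt hp0.le
  have hlog : 0 < Real.log p := Real.log_pos hp1
  constructor
  · have h2 : √(p : ℝ) * ((1 + Real.log p) / 2) < p := by
      have h3 : Real.log p ≤ 2 * (√(p : ℝ) - 1) := by
        have h4 : Real.log p = 2 * Real.log (√(p : ℝ)) := by
          rw [Real.log_sqrt hp0.le]
          ring
        rw [h4]
        have := Real.log_le_sub_one_of_pos hs
        linarith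
      have h5 : (1 + Real.log p) / 2 < √(p : ℝ) := by linarith
      calc √(p : ℝ) * ((1 + Real.log p) / 2) < √(p : ℝ) * √(p : ℝ) := by gcongr
        _ = p := hss
    have h6 : (p : ℝ) ^ (JJ p m d).card < (p : ℝ) ^ (Nat.totient m) := by
      refine lt_of_le_of_lt h1 ?_
      exact pow_lt_pow_left₀ h2 (by positivity) hφ.ne'
    exact (pow_lt_pow_iff_right₀ hp1).1 h6
  · have h2 := Real.log_le_log (by positivity) h1
    rw [Real.log_pow, Real.log_pow, Real.log_mul hs.ne' (by positivity), Real.log_sqrt hp0.le] at h2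
    rw [← mul_le_mul_iff_left₀ hlog]
    refine h2.trans (le_of_eq ?_)
    field_simp

end Pool.Agent.H42R3
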